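import Pool.Agent.Helper85_CYD.St2

/-! # CYD, module DES: the descent -/

set_option autoImplicit false

open Polynomial IsLocalRing

namespace Pool.Agent.CYD

namespace H47

theorem wp_per {L : Type} [Field L] (m : ℕ) (A B : ℕ → L[X])
    (h : ∀ b b' : ℕ, b ≡ b' [MOD m] → A b = A b' ∧ B b = B b') :
    ∀ (T : List (ℕ × ℕ)) (b b' : ℕ), b ≡ b' [MOD m] → WP A B T b = WP A B T b' := by
  intro T
  induction T with
  | nil =>
    intro b b' hb
    have := h b b' hb
    simp only [WP, this.1, this.2]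
  | cons x t ih =>
    intro b b' hb
    simp only [WP, ih b b' hb, ih (x.1 * b) (x.1 * b') (hb.mul_left x.1)]

theorem wp_ne {L : Type} [Field L] (A B : ℕ → L[X]) (hB : ∀ b : ℕ, B b ≠ 0) :
    ∀ (T : List (ℕ × ℕ)), (∀ x ∈ T, 1 ≤ x.2) → ∀ b : ℕ, (WP A B T b).2 ≠ 0 := by
  intro T
  induction T with
  | nil =>
    intro _ b
    exact hB b
  | cons x t ih =>
    intro hT b
    have h1 := ih (fun y hy => hT y (List.mem_cons_of_mem _ hy))
    have h2 : 0 < x.2 := hT x List.mem_cons_self
    simp only [WP]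
    exact mul_ne_zero ((expand_ne_zero h2).2 (h1 _)) (h1 _)

end H47

/-- DES: the descent. -/
theorem des (hPol : PolStmt) : DesStmt := by
  intro L _ p m _ hp hm A B hB hper T
  induction T with
  | nil =>
    intro _ h b hb
    exact h b hb
  | cons x t ih =>
    intro hT h
    have hx := hT x List.mem_cons_self
    have ht : ∀ y ∈ t, y.1.Coprime m ∧ 2 ≤ y.2 ∧ ¬ p ∣ y.2 :=
      fun y hy => hT y (List.mem_cons_of_mem _ hy)
    refine ih ht ?_
    have hD : ((x.2 : ℕ) : L) ≠ 0 := by
      intro h0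
      exact hx.2.2 ((CharP.cast_eq_zero_iff L p x.2).1 h0)
    exact hPol L m x.2 x.1 hm hD hx.2.1 hx.1 (fun b => (WP A B t b).1) (fun b => (WP A B t b).2)
      (H47.wp_ne A B hB t (fun y hy => le_trans (by norm_num) (ht y hy).2.1))
      (fun b b' hb => by
        have := H47.wp_per m A B hper t b b' hb
        simp only [this, and_self])
      (fun b hb => h b hb)

end Pool.Agent.CYD
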