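import Pool.Agent.Helper85_CYD.StG

/-! # CYD, module EXA: existence of valuation rings -/

set_option autoImplicit false

open Polynomial IsLocalRing

namespace Pool.Agent.CYD

/-- EXA: existence of valuation rings. -/
theorem exa : ExaStmt := by
  intro K _ _ l hl
  let A : Subring K := (Int.castRingHom K).range
  have hI : (Ideal.span {(l : A)} : Ideal A) ≠ ⊤ := by
    intro h
    have h1 : (1 : A) ∈ (Ideal.span {(l : A)} : Ideal A) := by
      rw [h]
      trivial
    obtain ⟨a, ha⟩ := Ideal.mem_span_singleton'.1 h1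
    obtain ⟨n, hn⟩ := a.2
    have h2 : (a : K) * (l : K) = 1 := by
      have := congrArg (fun x : A => (x : K)) ha
      simpa using this
    rw [← hn] at h2
    have h3 : ((n * (l : ℤ) : ℤ) : K) = ((1 : ℤ) : K) := by
      push_cast
      simpa using h2
    have h4 : n * (l : ℤ) = 1 := Int.cast_injective h3
    have h5 : (l : ℤ) ∣ 1 := ⟨n, by rw [mul_comm]; exact h4.symm⟩
    have h6 : l ∣ 1 := by exact_mod_cast h5
    exact hl.one_lt.ne' (Nat.dvd_one.1 h6)
  obtain ⟨B, hB1, hB2⟩ := Ideal.image_subset_nonunits_valuationSubring _ hI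
  refine ⟨B, ?_⟩
  rw [← ValuationSubring.coe_mem_nonunits_iff]
  have h7 : (l : K) ∈ A.subtype '' ((Ideal.span {(l : A)} : Ideal A) : Set A) :=
    ⟨(l : A), Ideal.subset_span rfl, by simp⟩
  have h8 := hB2 h7
  simpa using h8

end Pool.Agent.CYD
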