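import Pool.Agent.Helper85_CYD.St2

/-! # CYD, module LST: the list of operators -/

set_option autoImplicit false

open Polynomial IsLocalRing

namespace Pool.Agent.CYD

namespace H47

theorem bound (m : ℕ) (hm : 3 ≤ m) (ho : Odd m) (hs : Squarefree m) :
    m.totient * ∏ q ∈ m.primeFactors, (1 + q) ≤ m ^ 2 ∧
    9 * (2 ^ m.primeFactors.card * m.totient) ≤ 4 * m ^ 2 := by
  have hprod : ∏ q ∈ m.primeFactors, q = m := Nat.prod_primeFactors_of_squarefree hs
  have htot : m.totient = ∏ q ∈ m.primeFactors, (q - 1) := by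
    have h1 := Nat.totient_mul_prod_primeFactors m
    rw [hprod, mul_comm] at h1
    exact Nat.eq_of_mul_eq_mul_left (by omega) h1
  have hsq : m ^ 2 = ∏ q ∈ m.primeFactors, q ^ 2 := by
    rw [Finset.prod_pow, hprod]
  constructor
  · rw [htot, ← Finset.prod_mul_distrib, hsq]
    apply Finset.prod_le_prod'
    intro q hq
    have h2 : 1 ≤ q := (Nat.prime_of_mem_primeFactors hq).one_le
    obtain ⟨r, rfl⟩ := Nat.exists_eq_add_of_le h2
    have h3 : 1 + r - 1 = r := by omega
    rw [h3]
    nlinarith
  · have hne : m.primeFactors.Nonempty := by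
      rw [Nat.nonempty_primeFactors]
      omega
    obtain ⟨q0, hq0⟩ := hne
    have hodd : ∀ q ∈ m.primeFactors, 3 ≤ q := by
      intro q hq
      have h1 := Nat.prime_of_mem_primeFactors hq
      have h2 : Odd q := Odd.of_dvd_nat ho (Nat.dvd_of_mem_primeFactors hq)
      have h3 := h1.two_le
      rcases h2 with ⟨r, hr⟩
      omega
    have h4 : 2 ^ m.primeFactors.card * m.totient = ∏ q ∈ m.primeFactors, (2 * (q - 1)) := by
      rw [Finset.prod_mul_distrib, Finset.prod_const, htot]
    rw [h4, hsq, ← Finset.mul_prod_erase _ _ hq0, ← Finset.mul_prod_erase _ (fun q => q ^ 2) hq0]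
    have h5 : ∏ q ∈ m.primeFactors.erase q0, (2 * (q - 1)) ≤
        ∏ q ∈ m.primeFactors.erase q0, q ^ 2 := by
      apply Finset.prod_le_prod'
      intro q hq
      have h6 := hodd q (Finset.mem_of_mem_erase hq)
      obtain ⟨r, rfl⟩ := Nat.exists_eq_add_of_le h6
      have h7 : 3 + r - 1 = r + 2 := by omega
      rw [h7]
      nlinarith
    have h6 : 9 * (2 * (q0 - 1)) ≤ 4 * q0 ^ 2 := by
      have h6 := hodd q0 hq0
      obtain ⟨r, rfl⟩ := Nat.exists_eq_add_of_le h6
      have h7 : 3 + r - 1 = r + 2 := by omega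
      rw [h7]
      nlinarith
    calc 9 * (2 * (q0 - 1) * ∏ q ∈ m.primeFactors.erase q0, (2 * (q - 1)))
        = (9 * (2 * (q0 - 1))) * ∏ q ∈ m.primeFactors.erase q0, (2 * (q - 1)) := by ring
      _ ≤ (4 * q0 ^ 2) * ∏ q ∈ m.primeFactors.erase q0, q ^ 2 := Nat.mul_le_mul h6 h5
      _ = 4 * (q0 ^ 2 * ∏ q ∈ m.primeFactors.erase q0, q ^ 2) := by ring

end H47

/-- LST: the list of operators. -/
theorem lst : LstStmt := by
  intro p m hp hm ho hs hpm
  have hmp : m < p := by nlinarith
  have hcop : p.Coprime m := by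
    rw [Nat.Prime.coprime_iff_not_dvd hp]
    intro hd
    exact absurd (Nat.le_of_dvd (by omega) hd) (by omega)
  -- the operators for the primes dividing m
  have h1 : ∀ q : ℕ, ∃ κ : ℕ, q ∈ m.primeFactors → κ.Coprime (p * m) ∧ κ ≡ q [MOD p] ∧
      κ ≡ q [MOD p * m / q] := by
    intro q
    by_cases hq : q ∈ m.primeFactors
    · have hqp := Nat.prime_of_mem_primeFactors hq
      have hqm := Nat.dvd_of_mem_primeFactors hq
      obtain ⟨r, hr⟩ := hqm
      have hqr : q.Coprime r := by
        rw [hr] at hs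
        exact Nat.coprime_of_squarefree_mul hs
      have hqpc : q.Coprime p := by
        have := hcop.symm
        rw [hr] at this
        exact Nat.Coprime.coprime_mul_right this
      have hq0 : 0 < q := hqp.pos
      have hdiv : p * m / q = p * r := by
        rw [hr]
        have : p * (q * r) = q * (p * r) := by ring
        rw [this]
        exact Nat.mul_div_cancel_left _ hq0
      have hc : (p * r).Coprime q := (Nat.Coprime.mul_right hqpc hqr).symm
      obtain ⟨κ, hκ1, hκ2⟩ := Nat.chineseRemainder hc q 1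
      refine ⟨κ, fun _ => ⟨?_, ?_, ?_⟩⟩
      · have h2 : κ.Coprime (p * r) := by
          have h3 : Nat.gcd κ (p * r) = Nat.gcd q (p * r) := hκ1.gcd_eq
          unfold Nat.Coprime
          rw [h3]
          exact hc.symm
        have h3 : κ.Coprime q := by
          have h4 : Nat.gcd κ q = Nat.gcd 1 q := hκ2.gcd_eq
          unfold Nat.Coprime
          rw [h4]
          simp
        have h5 : p * m = (p * r) * q := by rw [hr]; ring
        rw [h5]
        exact Nat.Coprime.mul_right h2 h3
      · exact hκ1.of_mul_right r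
      · rw [hdiv]
        exact hκ1
    · exact ⟨0, fun h => absurd h hq⟩
  choose κ hκ using h1
  -- the operator for p
  obtain ⟨κ0, h01, h02⟩ := Nat.chineseRemainder hcop.symm 1 2
  have hp2 : 2 < p := by nlinarith
  have hκ0 : κ0.Coprime (p * m) := by
    have h3 : Nat.gcd κ0 m = Nat.gcd 1 m := h01.gcd_eq
    have h4 : Nat.gcd κ0 p = Nat.gcd 2 p := h02.gcd_eq
    apply Nat.Coprime.mul_right
    · unfold Nat.Coprime
      rw [h4]
      exact (Nat.coprime_primes Nat.prime_two hp).2 (by omega)
    · unfold Nat.Coprime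
      rw [h3]
      simp
  refine ⟨(κ0, 2) :: m.primeFactors.toList.map (fun q => (κ q, q)), ?_, ?_, ?_⟩
  · intro x hx
    rcases List.mem_cons.1 hx with rfl | hx
    · refine ⟨hκ0, h02, le_refl _, ?_⟩
      intro hd
      have := Nat.le_of_dvd (by omega) hd
      omega
    · obtain ⟨q, hq, rfl⟩ := List.mem_map.1 hx
      rw [Finset.mem_toList] at hq
      have h2 := hκ q hq
      refine ⟨h2.1, h2.2.1, (Nat.prime_of_mem_primeFactors hq).two_le, ?_⟩
      intro hd
      have h3 := Nat.le_of_dvd (Nat.prime_of_mem_primeFactors hq).pos hd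
      have h4 := Nat.le_of_dvd (by omega) (Nat.dvd_of_mem_primeFactors hq)
      omega
  · intro l hl hd
    rcases (Nat.Prime.dvd_mul hl).1 hd with h2 | h2
    · have h3 : l = p := (Nat.prime_dvd_prime_iff_eq hl hp).1 h2
      refine ⟨(κ0, 2), List.mem_cons_self, Or.inl ?_⟩
      rw [h3, Nat.mul_div_cancel_left _ hp.pos]
      exact h01
    · have h3 : l ∈ m.primeFactors := by
        rw [Nat.mem_primeFactors]
        exact ⟨hl, h2, by omega⟩
      refine ⟨(κ l, l), ?_, Or.inr (hκ l h3).2.2⟩
      apply List.mem_cons_of_mem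
      rw [List.mem_map]
      exact ⟨l, Finset.mem_toList.2 h3, rfl⟩
  · obtain ⟨b1, b2⟩ := H47.bound m hm ho hs
    have e1 : (((κ0, 2) :: m.primeFactors.toList.map (fun q => (κ q, q))).map
        (fun x => 1 + x.2)).prod = 3 * ∏ q ∈ m.primeFactors, (1 + q) := by
      rw [List.map_cons, List.prod_cons, List.map_map]
      congr 1
      exact Finset.prod_map_toList m.primeFactors (fun q => 1 + q)
    have e2 : ((κ0, 2) :: m.primeFactors.toList.map (fun q => (κ q, q))).length =
        m.primeFactors.card + 1 := by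
      simp
    rw [e1, e2, pow_succ]
    set P := ∏ q ∈ m.primeFactors, (1 + q) with hP
    set Q := 2 ^ m.primeFactors.card with hQ
    have b3 : 3 * m.totient * (3 * P) + Q * 2 * (2 * m.totient) + 2 =
        9 * (m.totient * P) + 4 * (Q * m.totient) + 2 := by ring
    rw [b3]
    have b4 : 9 ≤ m ^ 2 := by nlinarith
    omega

end Pool.Agent.CYD
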