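import Pool.Agent.Helper85_CYD.St2

/-! # CYD, module RPX: the values at `z ^ k` -/

set_option autoImplicit false

open Polynomial IsLocalRing

namespace Pool.Agent.CYD

namespace H47

theorem comp_sub_dvd {L : Type} [Field L] (F u v : L[X]) : u - v ∣ F.comp u - F.comp v := by
  have h := Polynomial.sub_dvd_eval_sub u v (F.map C)
  rw [eval_map, eval_map] at h
  exact h

theorem pow_sub_dvd {L : Type} [Field L] (p : ℕ) [CharP L p] (hp : p.Prime) (k D : ℕ)
    (h : k ≡ D [MOD p]) : ((X : L[X]) - 1) ^ p ∣ X ^ k - X ^ D := by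
  have : Fact p.Prime := ⟨hp⟩
  have h1 : ((X : L[X]) - 1) ^ p = X ^ p - 1 := by
    rw [sub_pow_char, one_pow]
  have key : ∀ k D : ℕ, k ≤ D → k ≡ D [MOD p] → ((X : L[X]) - 1) ^ p ∣ X ^ D - X ^ k := by
    intro k D hkD h
    have h2 : p ∣ D - k := (Nat.modEq_iff_dvd' hkD).1 h
    obtain ⟨j, hj⟩ := h2
    have h3 : (X : L[X]) ^ D - X ^ k = X ^ k * ((X ^ p) ^ j - 1) := by
      have h4 : D = k + p * j := by omega
      rw [h4, pow_add, pow_mul]
      ring
    rw [h3, h1]
    have h5 : (X : L[X]) ^ p - 1 ∣ (X ^ p) ^ j - 1 := by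
      have := sub_dvd_pow_sub_pow ((X : L[X]) ^ p) 1 j
      rwa [one_pow] at this
    exact Dvd.dvd.mul_left h5 _
  rcases le_total k D with h6 | h6
  · have := key k D h6 h
    have h7 : (X : L[X]) ^ k - X ^ D = -(X ^ D - X ^ k) := by ring
    rw [h7]
    exact (dvd_neg).2 this
  · exact key D k h6 h.symm

theorem mult_comp {L : Type} [Field L] (F : L[X]) (b : L) (D : ℕ) (hb : b ≠ 0) (hD : (D : L) ≠ 0)
    (hF : F ≠ 0) : F.comp (C b * X ^ D) ≠ 0 ∧
      rootMultiplicity 1 (F.comp (C b * X ^ D)) = rootMultiplicity b F := by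
  obtain ⟨F1, hF1, hF2⟩ := Polynomial.exists_eq_pow_rootMultiplicity_mul_and_not_dvd F hF b
  set s := rootMultiplicity b F with hs
  have h1 : eval b F1 ≠ 0 := by
    intro h
    exact hF2 (dvd_iff_isRoot.2 h)
  obtain ⟨G, hG⟩ : (X : L[X]) - 1 ∣ X ^ D - 1 := by
    have := sub_dvd_pow_sub_pow (X : L[X]) 1 D
    rwa [one_pow] at this
  have hG1 : eval 1 G = (D : L) := by
    have h2 := congrArg (fun q => eval 1 (derivative q)) hG
    simp [derivative_X_pow] at h2
    exact h2.symm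
  have h3 : F.comp (C b * X ^ D) = (X - C 1) ^ s * ((C b * G) ^ s * F1.comp (C b * X ^ D)) := by
    have h4 : (C b * X ^ D - C b : L[X]) = (X - C 1) * (C b * G) := by
      have h5 : (C b * X ^ D - C b : L[X]) = C b * (X ^ D - 1) := by ring
      rw [h5, hG, C_1]
      ring
    conv_lhs => rw [hF1]
    rw [mul_comp, pow_comp, sub_comp, X_comp, C_comp, h4, mul_pow]
    ring
  have h6 : eval 1 ((C b * G) ^ s * F1.comp (C b * X ^ D)) ≠ 0 := by
    rw [eval_mul, eval_pow, eval_mul, eval_C, hG1, eval_comp]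
    simp only [eval_mul, eval_C, eval_pow, eval_X, one_pow, mul_one]
    exact mul_ne_zero (pow_ne_zero _ (mul_ne_zero hb hD)) h1
  have h7 : (C b * G) ^ s * F1.comp (C b * X ^ D) ≠ 0 := by
    intro h
    rw [h] at h6
    simp at h6
  have h8 : (X - C (1 : L)) ^ s ≠ 0 := pow_ne_zero _ (X_sub_C_ne_zero _)
  constructor
  · rw [h3]
    exact mul_ne_zero h8 h7
  · rw [h3, rootMultiplicity_mul (mul_ne_zero h8 h7), rootMultiplicity_X_sub_C_pow,
      rootMultiplicity_eq_zero h6, add_zero]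

end H47

/-- RPX: the values at `z ^ k`. -/
theorem rpx : RpxStmt := by
  intro p m L _ _ a f k D hp hm ha hkD hk
  have ha0 : a ≠ 0 := ha.ne_zero (by omega)
  have hb : a ^ k ≠ 0 := pow_ne_zero _ ha0
  have hDp : ¬ p ∣ D := by
    intro h
    exact hk ((hkD.dvd_iff (dvd_refl p)).2 h)
  have hD : (D : L) ≠ 0 := by
    intro h
    exact hDp ((CharP.cast_eq_zero_iff L p D).1 h)
  refine ⟨?_, ?_, ?_⟩
  · have h1 : (red L (expand ℤ k f)).comp (C a * X) = (red L f).comp (C (a ^ k) * X ^ k) := by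
      unfold red
      rw [map_expand, expand_eq_comp_X_pow, comp_assoc, pow_comp, X_comp, mul_pow, C_pow]
    rw [h1]
    have h2 := H47.comp_sub_dvd (red L f) (C (a ^ k) * X ^ k) (C (a ^ k) * X ^ D)
    have h3 := H47.pow_sub_dvd (L := L) p hp k D hkD
    have h4 : (C (a ^ k) * X ^ k - C (a ^ k) * X ^ D : L[X]) = C (a ^ k) * (X ^ k - X ^ D) := by
      ring
    rw [h4] at h2
    refine dvd_trans ?_ h2
    refine dvd_trans ?_ (Dvd.dvd.mul_left h3 _)
    exact pow_dvd_pow _ (by omega)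
  · by_cases hF : red L f = 0
    · rw [hF]
      simp
    · exact (H47.mult_comp (red L f) (a ^ k) D hb hD hF).2
  · intro hF
    exact (H47.mult_comp (red L f) (a ^ k) D hb hD hF).1

end Pool.Agent.CYD
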